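import Pool.Agent.Run7.h870.BS.Tw

/-!
# MP_567fef_nt: for every large `n`, primes `p` with `n - (p n' - 1)` and `n + (p n' - 1)` almost
primes

Here `n' = 1` for odd `n` and `n' = 2` for even `n`. The problem asks (part 1) whether for every
`n > 6` there is a prime `p` with `p n' - 1 < n` such that `n - (p n' - 1)` and `n + (p n' - 1)` are
both prime. Here: for every large `n` there are at least `c * n / log ^ 3 n` such primes `p` for
which both numbers have all their prime factors at least `n ^ δ`, hence at most `R` prime factors.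
-/

set_option autoImplicit false

open Finset

namespace Pool.Agent.Results.MP_567fef_nt.EveryIntegerAlmostPrimes

/-- `n' = 1` for odd `n`, `n' = 2` for even `n` -/
def np (n : ℕ) : ℕ := if n % 2 = 1 then 1 else 2

/-- the primes `p` with `k = p n' - 1 < n` such that `n - k` and `n + k` have at most `R` prime
factors, counted with multiplicity, all of them at least `z` -/
def good (n R : ℕ) (z : ℝ) : Set ℕ :=
  {p | p.Prime ∧ p * np n - 1 < n ∧
    (∀ l : ℕ, l.Prime → l ∣ n - (p * np n - 1) ∨ l ∣ n + (p * np n - 1) → z ≤ l) ∧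
    ArithmeticFunction.cardFactors (n - (p * np n - 1)) ≤ R ∧
    ArithmeticFunction.cardFactors (n + (p * np n - 1)) ≤ R}

theorem np_cases (n : ℕ) : (n % 2 = 1 ∧ np n = 1) ∨ (n % 2 = 0 ∧ np n = 2) := by
  unfold np
  split_ifs with h
  · exact Or.inl ⟨h, rfl⟩
  · exact Or.inr ⟨by omega, rfl⟩

/-- There are `δ, c > 0`, `R` and `n₀` such that for every `n ≥ n₀` there are at least
`c * n / (log n) ^ 3` primes `p` with `p n' - 1 < n` for which `n - (p n' - 1)` and
`n + (p n' - 1)` have at most `R` prime factors, all at least `n ^ δ`. -/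
theorem result : ∃ (δ c : ℝ) (R : ℕ), 0 < δ ∧ 0 < c ∧ ∃ n₀ : ℕ, ∀ n : ℕ, n₀ ≤ n →
    c * (n / Real.log n ^ 3) ≤ ((good n R ((n : ℝ) ^ δ)).ncard : ℝ) := by
  have hsize : ∀ n p : ℕ, 4 ≤ n → 1 / 4 * (n : ℝ) < p → (p : ℝ) < 2 * (1 / 4 * n) →
      1 ≤ p * np n ∧ p * np n < n ∧ 2 * n ≤ n ^ 4 := by
    intro n p hn h1 h2
    have h0 : (0 : ℝ) < n := by exact_mod_cast (by omega : 0 < n)
    have h3 : (0 : ℝ) < p := by linarith
    have h4 : 0 < p := by exact_mod_cast h3
    have h5 : 2 * (p : ℝ) < n := by linarith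
    have h6 : 2 * p < n := by exact_mod_cast h5
    have h7 : n ^ 4 = n * (n ^ 3) := by ring
    have h8 : 2 ≤ n ^ 3 := by
      calc 2 ≤ 4 ^ 3 := by norm_num
        _ ≤ n ^ 3 := Nat.pow_le_pow_left hn 3
    refine ⟨?_, ?_, ?_⟩
    · rcases np_cases n with ⟨_, h⟩ | ⟨_, h⟩ <;> rw [h] <;> omega
    · rcases np_cases n with ⟨_, h⟩ | ⟨_, h⟩ <;> rw [h] <;> omega
    · rw [h7, mul_comm 2 n]
      exact Nat.mul_le_mul_left _ h8
  obtain ⟨δ, c, R, hδ, hc, n₀, hn₀, h⟩ := Run7.h870.BS.wrap (1 / 4) (by norm_num) (by norm_num)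
    (fun n => (n : ℤ) + 1) (fun n => (n : ℤ) - 1) (fun n => -(np n : ℤ)) (fun n => (np n : ℤ))
    (fun n p => n - (p * np n - 1)) (fun n p => n + (p * np n - 1)) (by
      intro n p hn h1 h2
      obtain ⟨k1, k2, k3⟩ := hsize n p hn h1 h2
      refine ⟨?_, by omega, by omega⟩
      rw [Nat.cast_sub (by omega), Nat.cast_sub k1]
      push_cast
      ring) (by
      intro n p hn h1 h2
      obtain ⟨k1, k2, k3⟩ := hsize n p hn h1 h2
      refine ⟨?_, by omega, by omega⟩
      rw [Nat.cast_add, Nat.cast_sub k1]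
      push_cast
      ring) (by
      intro n l hl h3
      have h1 : ¬ (l : ℤ) ∣ (np n : ℤ) := by
        intro h
        have h4 : l ∣ np n := by exact_mod_cast h
        rcases np_cases n with ⟨_, h5⟩ | ⟨_, h5⟩
        · have := Nat.le_of_dvd (by omega) h4
          omega
        · have := Nat.le_of_dvd (by omega) h4
          omega
      exact ⟨fun h => h1 ((dvd_neg).1 h), h1⟩) (by
      intro n
      refine ⟨1, by norm_num, ?_, ?_⟩
      · rcases np_cases n with ⟨h4, h5⟩ | ⟨h4, h5⟩
        · simp only [h5]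
          omega
        · simp only [h5]
          omega
      · rcases np_cases n with ⟨h4, h5⟩ | ⟨h4, h5⟩
        · simp only [h5]
          omega
        · simp only [h5]
          omega) (by
      intro n
      rcases np_cases n with ⟨h4, h5⟩ | ⟨h4, h5⟩
      · simp only [h5]
        have h6 : n % 3 = 0 ∨ n % 3 = 1 ∨ n % 3 = 2 := by omega
        rcases h6 with h6 | h6 | h6
        · exact ⟨2, by norm_num, by omega, by omega⟩
        · exact ⟨1, by norm_num, by omega, by omega⟩
        · exact ⟨1, by norm_num, by omega, by omega⟩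
      · simp only [h5]
        have h6 : n % 3 = 0 ∨ n % 3 = 1 ∨ n % 3 = 2 := by omega
        rcases h6 with h6 | h6 | h6
        · exact ⟨1, by norm_num, by omega, by omega⟩
        · exact ⟨2, by norm_num, by omega, by omega⟩
        · exact ⟨2, by norm_num, by omega, by omega⟩)
  refine ⟨δ, c, R, hδ, hc, max n₀ 4, fun n hn => ?_⟩
  have hn4 : 4 ≤ n := le_trans (le_max_right _ _) hn
  obtain ⟨T, hT, hTp⟩ := h n (le_trans (le_max_left _ _) hn)
  refine hT.trans ?_
  rw [Nat.cast_le, ← Set.ncard_coe_finset]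
  apply Set.ncard_le_ncard
  · intro p hp
    obtain ⟨h1, h2, h3, h4⟩ := hTp p hp
    obtain ⟨k1, k2, k3⟩ := hsize n p hn4 h2 h3
    exact ⟨h1, by omega, h4⟩
  · apply Set.Finite.subset (Finset.finite_toSet (range (n + 1)))
    intro p hp
    rw [mem_coe, mem_range]
    have h5 := hp.2.1
    rcases np_cases n with ⟨_, h6⟩ | ⟨_, h6⟩ <;> rw [h6] at h5 <;> omega

end Pool.Agent.Results.MP_567fef_nt.EveryIntegerAlmostPrimes
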